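import Pool.Agent.W661.RC.Stm

/-!
# Project RC: spectral projection at a good level
-/

set_option autoImplicit false

namespace Pool.Agent.W696.RC.LEV

open Matrix Pool.Agent.W661.RC MeasureTheory
open scoped ComplexOrder

theorem hs_eq {m n : Type} [Fintype m] [Fintype n] (A : Matrix m n ℂ) :
    hs A = (Matrix.trace (Aᴴ * A)).re := by
  unfold hs
  rw [Matrix.trace, Finset.sum_comm]
  simp only [Matrix.diag_apply, Matrix.mul_apply, Matrix.conjTranspose_apply, Complex.re_sum]
  refine Finset.sum_congr rfl fun j _ => Finset.sum_congr rfl fun i _ => ?_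
  rw [Complex.star_def, ← Complex.normSq_eq_conj_mul_self, Complex.ofReal_re,
    Complex.normSq_eq_norm_sq]

theorem hs_left {d : ℕ} (V A : Mt d) (hV : Vᴴ * V = 1) : hs (V * A) = hs A := by
  rw [hs_eq, hs_eq, conjTranspose_mul]
  have : Aᴴ * Vᴴ * (V * A) = Aᴴ * (Vᴴ * V) * A := by simp only [Matrix.mul_assoc]
  rw [this, hV, Matrix.mul_one]

theorem hs_right {d : ℕ} (V A : Mt d) (hV : V * Vᴴ = 1) : hs (A * V) = hs A := by
  rw [hs_eq, hs_eq, conjTranspose_mul]
  have : Vᴴ * Aᴴ * (A * V) = Vᴴ * (Aᴴ * A * V) := by simp only [Matrix.mul_assoc]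
  rw [this, Matrix.trace_mul_comm, Matrix.mul_assoc (Aᴴ * A), hV, Matrix.mul_one]

/-- The matrix with the eigenvalues `β` in the basis `V`. -/
def Dg {d : ℕ} (V : Mt d) (β : Fin d → ℝ) : Mt d := V * diagonal (fun i => (β i : ℂ)) * Vᴴ

section

variable {d : ℕ} (V : Mt d)

theorem Dg_mul (hV : Vᴴ * V = 1) (β γ : Fin d → ℝ) :
    Dg V β * Dg V γ = Dg V (fun i => β i * γ i) := by
  unfold Dg
  have : V * diagonal (fun i => (β i : ℂ)) * Vᴴ * (V * diagonal (fun i => (γ i : ℂ)) * Vᴴ)
      = V * diagonal (fun i => (β i : ℂ)) * (Vᴴ * V) * diagonal (fun i => (γ i : ℂ)) * Vᴴ := by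
    simp only [Matrix.mul_assoc]
  rw [this, hV, Matrix.mul_one, Matrix.mul_assoc V, diagonal_mul_diagonal]
  simp

theorem Dg_one (hV : V * Vᴴ = 1) : Dg V (fun _ => 1) = 1 := by
  unfold Dg
  simp [hV]

theorem Dg_sub (β γ : Fin d → ℝ) : Dg V β - Dg V γ = Dg V (fun i => β i - γ i) := by
  unfold Dg
  rw [← Matrix.sub_mul, ← Matrix.mul_sub, diagonal_sub]
  simp

theorem Dg_smul (c : ℝ) (β : Fin d → ℝ) : (c : ℂ) • Dg V β = Dg V (fun i => c * β i) := by
  unfold Dg
  rw [← Matrix.smul_mul, ← Matrix.mul_smul, ← diagonal_smul]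
  congr 3
  ext i
  simp

theorem Dg_herm (β : Fin d → ℝ) : (Dg V β)ᴴ = Dg V β := by
  unfold Dg
  rw [conjTranspose_mul, conjTranspose_mul, conjTranspose_conjTranspose, diagonal_conjTranspose,
    Matrix.mul_assoc]
  congr 3
  ext i
  simp

theorem Dg_pos (β : Fin d → ℝ) (h : ∀ i, 0 ≤ β i) : (Dg V β).PosSemidef := by
  unfold Dg
  refine PosSemidef.mul_mul_conjTranspose_same ?_ V
  rw [posSemidef_diagonal_iff]
  intro i
  exact_mod_cast h i

theorem Dg_tr (hV : Vᴴ * V = 1) (β : Fin d → ℝ) : tr (Dg V β) = ∑ i, β i := by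
  unfold tr Dg
  rw [Matrix.trace_mul_comm, ← Matrix.mul_assoc, hV, Matrix.one_mul, trace_diagonal]
  simp

theorem comm_hs (hV : Vᴴ * V = 1) (hV' : V * Vᴴ = 1) (u : Mt d) (β : Fin d → ℝ) :
    hs (u * Dg V β - Dg V β * u) = ∑ i, ∑ j, ‖(Vᴴ * u * V) i j‖ ^ 2 * (β j - β i) ^ 2 := by
  have h1 : hs (u * Dg V β - Dg V β * u) = hs (Vᴴ * (u * Dg V β - Dg V β * u) * V) := by
    rw [hs_right V _ hV', hs_left Vᴴ _ (by rw [conjTranspose_conjTranspose]; exact hV')]
  have h2 : Vᴴ * (u * Dg V β - Dg V β * u) * V =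
      (Vᴴ * u * V) * diagonal (fun i => (β i : ℂ)) -
        diagonal (fun i => (β i : ℂ)) * (Vᴴ * u * V) := by
    rw [Matrix.mul_sub, Matrix.sub_mul]
    congr 1
    · unfold Dg
      have : Vᴴ * (u * (V * diagonal (fun i => (β i : ℂ)) * Vᴴ)) * V =
        Vᴴ * u * V * diagonal (fun i => (β i : ℂ)) * (Vᴴ * V) := by simp only [Matrix.mul_assoc]
      rw [this, hV, Matrix.mul_one]
    · unfold Dg
      have : Vᴴ * (V * diagonal (fun i => (β i : ℂ)) * Vᴴ * u) * V =
        (Vᴴ * V) * (diagonal (fun i => (β i : ℂ)) * (Vᴴ * u * V)) := by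
          simp only [Matrix.mul_assoc]
      rw [this, hV, Matrix.one_mul]
  rw [h1, h2]
  unfold hs
  refine Finset.sum_congr rfl fun i _ => Finset.sum_congr rfl fun j _ => ?_
  rw [Matrix.sub_apply, mul_diagonal, diagonal_mul]
  have : (Vᴴ * u * V) i j * (β j : ℂ) - (β i : ℂ) * (Vᴴ * u * V) i j =
      (Vᴴ * u * V) i j * ((β j - β i : ℝ) : ℂ) := by push_cast; ring
  rw [this, norm_mul, mul_pow, Complex.norm_real, Real.norm_eq_abs, sq_abs]

theorem Dg_hs (hV : Vᴴ * V = 1) (_hV' : V * Vᴴ = 1) (β : Fin d → ℝ) :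
    hs (Dg V β) = ∑ i, β i ^ 2 := by
  unfold Dg
  rw [hs_right Vᴴ _ (by rw [conjTranspose_conjTranspose]; exact hV), hs_left V _ hV]
  unfold hs
  refine Finset.sum_congr rfl fun i _ => ?_
  rw [Finset.sum_eq_single i]
  · simp
  · intro j _ hj
    rw [diagonal_apply_ne _ hj.symm]
    simp
  · simp

/-- Distance of a projection from a diagonal matrix. -/
theorem diag_hs (f : Mt d) (hf : IsPr f) : ∃ c : Fin d → ℝ, (∀ i, 0 ≤ c i ∧ c i ≤ 1) ∧
    ∀ β : Fin d → ℝ, hs (diagonal (fun i => (β i : ℂ)) - f) =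
      ∑ i, (c i * (1 - β i) ^ 2 + (1 - c i) * β i ^ 2) := by
  obtain ⟨h1, h2⟩ := hf
  have hc : ∀ i, f i i = ((∑ j, ‖f i j‖ ^ 2 : ℝ) : ℂ) := by
    intro i
    have h3 : (f * f) i i = f i i := by rw [h2]
    rw [← h3, Matrix.mul_apply]
    push_cast
    refine Finset.sum_congr rfl fun j _ => ?_
    have h4 : f j i = star (f i j) := by
      have : fᴴ j i = f j i := by rw [h1]
      rw [← this, conjTranspose_apply]
    rw [h4, Complex.star_def, Complex.mul_conj, Complex.normSq_eq_norm_sq]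
    push_cast
    rfl
  refine ⟨fun i => ∑ j, ‖f i j‖ ^ 2, fun i => ?_, fun β => ?_⟩
  · have h0 : 0 ≤ ∑ j, ‖f i j‖ ^ 2 := Finset.sum_nonneg fun j _ => by positivity
    refine ⟨h0, ?_⟩
    have h5 : ‖f i i‖ ^ 2 ≤ ∑ j, ‖f i j‖ ^ 2 :=
      Finset.single_le_sum (f := fun j => ‖f i j‖ ^ 2) (fun j _ => by positivity)
        (Finset.mem_univ i)
    rw [hc i, Complex.norm_real, Real.norm_eq_abs, sq_abs] at h5
    by_contra hlt
    push Not at hlt
    nlinarith
  · unfold hs
    refine Finset.sum_congr rfl fun i _ => ?_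
    have h6 : ∀ j, ‖(diagonal (fun i => (β i : ℂ)) - f) i j‖ ^ 2 =
        ‖f i j‖ ^ 2 + if i = j then (β i - ∑ l, ‖f i l‖ ^ 2) ^ 2 - (∑ l, ‖f i l‖ ^ 2) ^ 2
          else 0 := by
      intro j
      by_cases hij : i = j
      · subst hij
        rw [Matrix.sub_apply, diagonal_apply_eq, hc i, if_pos rfl]
        rw [← Complex.ofReal_sub, Complex.norm_real, Complex.norm_real, Real.norm_eq_abs,
          Real.norm_eq_abs, sq_abs, sq_abs]
        ring
      · rw [Matrix.sub_apply, diagonal_apply_ne _ hij, if_neg hij, zero_sub, norm_neg, add_zero]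
    rw [Finset.sum_congr rfl fun j _ => h6 j, Finset.sum_add_distrib,
      Finset.sum_ite_eq, if_pos (Finset.mem_univ i)]
    ring

end

/-- The measure of the levels between `p` and `q`. -/
theorem int_le (a b p q : ℝ) (ha : 0 < a) (hp : 0 ≤ p) (hq : 0 ≤ q) :
    ∫ t in Set.Icc a b, ((if t ≤ p then (1 : ℝ) else 0) - (if t ≤ q then 1 else 0)) ^ 2 ≤
      |p - q| * (p + q) / a := by
  wlog hpq : p ≤ q generalizing p q
  · have := this q p hq hp (le_of_not_ge hpq)
    rw [abs_sub_comm, add_comm p q]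
    refine le_trans (le_of_eq ?_) this
    congr 1
    ext t
    ring
  have e : ∀ t : ℝ, ((if t ≤ p then (1 : ℝ) else 0) - (if t ≤ q then 1 else 0)) ^ 2 =
      (Set.Ioc p q).indicator (fun _ => (1 : ℝ)) t := by
    intro t
    by_cases h1 : t ≤ p
    · have h2 : t ≤ q := h1.trans hpq
      have h3 : t ∉ Set.Ioc p q := fun h => absurd h.1 (not_lt.2 h1)
      simp [h1, h2]
    · by_cases h2 : t ≤ q
      · have h3 : t ∈ Set.Ioc p q := ⟨not_le.1 h1, h2⟩
        rw [Set.indicator_of_mem h3]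
        simp [h1, h2]
      · have h3 : t ∉ Set.Ioc p q := fun h => h2 h.2
        rw [Set.indicator_of_notMem h3]
        simp [h1, h2]
  simp_rw [e]
  rw [setIntegral_indicator measurableSet_Ioc, setIntegral_const, smul_eq_mul, mul_one]
  have hnn : 0 ≤ |p - q| * (p + q) / a := by positivity
  by_cases hqa : q < a
  · have : Set.Icc a b ∩ Set.Ioc p q = ∅ := by
      ext t
      simp only [Set.mem_inter_iff, Set.mem_Icc, Set.mem_Ioc, Set.mem_empty_iff_false, iff_false]
      rintro ⟨⟨h1, _⟩, _, h2⟩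
      linarith
    rw [this]
    simpa using hnn
  · push Not at hqa
    have h1 : volume.real (Set.Icc a b ∩ Set.Ioc p q) ≤ volume.real (Set.Ioc p q) :=
      measureReal_mono Set.inter_subset_right (by simp)
    have h2 : volume.real (Set.Ioc p q) = q - p := by
      rw [Real.volume_real_Ioc_of_le hpq]
    rw [h2] at h1
    refine h1.trans ?_
    rw [le_div_iff₀ ha, abs_sub_comm, abs_of_nonneg (by linarith)]
    nlinarith

theorem main : LevP := by
  intro d k u x a b hu hx _ ha hab hb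
  have ha0 : 0 < a := by linarith
  have hxh : x.IsHermitian := hx.1
  set V : Mt d := (hxh.eigenvectorUnitary : Mt d) with hVdef
  have hV : Vᴴ * V = 1 := by
    have := (mem_unitaryGroup_iff' (A := V)).1 (hxh.eigenvectorUnitary).2
    rwa [star_eq_conjTranspose] at this
  have hV' : V * Vᴴ = 1 := mul_eq_one_comm.1 hV
  set α : Fin d → ℝ := hxh.eigenvalues with hα
  have hα0 : ∀ i, 0 ≤ α i := hx.eigenvalues_nonneg
  have hxD : x = Dg V α := by
    have := hxh.spectral_theorem
    rw [Dg]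
    conv_lhs => rw [this]
    rfl
  -- the matrices in the basis
  set w : Fin k → Mt d := fun s => Vᴴ * u s * V with hw
  have hw1 : ∀ s, (w s)ᴴ * w s = 1 := by
    intro s
    have : (w s)ᴴ * w s = Vᴴ * ((u s)ᴴ * (V * Vᴴ) * u s) * V := by
      simp only [hw, conjTranspose_mul, conjTranspose_conjTranspose, Matrix.mul_assoc]
    rw [this, hV', Matrix.mul_one, hu, Matrix.mul_one, hV]
  have hw2 : ∀ s, w s * (w s)ᴴ = 1 := fun s => mul_eq_one_comm.1 (hw1 s)
  have hcol : ∀ s j, ∑ i, ‖w s i j‖ ^ 2 = 1 := by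
    intro s j
    have h1 : ((w s)ᴴ * w s) j j = 1 := by rw [hw1]; simp
    rw [Matrix.mul_apply] at h1
    have h2 : ∀ i, (w s)ᴴ j i * w s i j = ((‖w s i j‖ ^ 2 : ℝ) : ℂ) := by
      intro i
      rw [conjTranspose_apply, Complex.star_def, ← Complex.normSq_eq_conj_mul_self,
        Complex.normSq_eq_norm_sq]
    rw [Finset.sum_congr rfl fun i _ => h2 i, ← Complex.ofReal_sum] at h1
    exact_mod_cast h1
  have hrow : ∀ s i, ∑ j, ‖w s i j‖ ^ 2 = 1 := by
    intro s i
    have h1 : (w s * (w s)ᴴ) i i = 1 := by rw [hw2]; simp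
    rw [Matrix.mul_apply] at h1
    have h2 : ∀ j, w s i j * (w s)ᴴ j i = ((‖w s i j‖ ^ 2 : ℝ) : ℂ) := by
      intro j
      rw [conjTranspose_apply, Complex.star_def, Complex.mul_conj,
        Complex.normSq_eq_norm_sq]
    rw [Finset.sum_congr rfl fun i _ => h2 i, ← Complex.ofReal_sum] at h1
    exact_mod_cast h1
  have hen : ∀ β : Fin d → ℝ, en u (Dg V β) =
      ∑ s, ∑ i, ∑ j, ‖w s i j‖ ^ 2 * (β j - β i) ^ 2 := by
    intro β
    unfold en
    exact Finset.sum_congr rfl fun s _ => comm_hs V hV hV' (u s) β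
  -- choice of the level
  set B : ℝ → Fin d → ℝ := fun t i => if t ≤ α i then 1 else 0 with hB
  have hint : ∀ p q : ℝ, IntegrableOn
      (fun t : ℝ => ((if t ≤ p then (1 : ℝ) else 0) - (if t ≤ q then 1 else 0)) ^ 2)
      (Set.Icc a b) volume := by
    intro p q
    refine Measure.integrableOn_of_bounded (M := 1) (by simp) ?_ ?_
    · exact (((Measurable.ite measurableSet_Iic measurable_const measurable_const).sub
        (Measurable.ite measurableSet_Iic measurable_const measurable_const)).pow_const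
          2).aestronglyMeasurable
    · refine Filter.Eventually.of_forall fun t => ?_
      by_cases h1 : t ≤ p <;> by_cases h2 : t ≤ q <;> simp [h1, h2]
  have hintf : IntegrableOn (fun t => en u (Dg V (B t))) (Set.Icc a b) volume := by
    simp_rw [hen]
    refine integrable_finsetSum _ fun s _ => integrable_finsetSum _ fun i _ =>
      integrable_finsetSum _ fun j _ => ?_
    exact (hint (α j) (α i)).const_mul _
  have hvol : volume.real (Set.Icc a b) = b - a := by
    rw [Real.volume_real_Icc_of_le hab.le]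
  obtain ⟨t, ht, hte⟩ := exists_le_setAverage (μ := volume) (s := Set.Icc a b)
    (f := fun t => en u (Dg V (B t)))
    (by rw [Real.volume_Icc]; simp [hab]) (by simp) hintf
  rw [setAverage_eq, hvol, smul_eq_mul] at hte
  have hI : ∫ t in Set.Icc a b, en u (Dg V (B t)) ≤
      ∑ s, ∑ i, ∑ j, ‖w s i j‖ ^ 2 * (|α j - α i| * (α j + α i) / a) := by
    simp_rw [hen]
    rw [integral_finsetSum _ fun s _ => integrable_finsetSum _ fun i _ =>
      integrable_finsetSum _ fun j _ => (hint (α j) (α i)).const_mul _]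
    refine Finset.sum_le_sum fun s _ => ?_
    rw [integral_finsetSum _ fun i _ => integrable_finsetSum _ fun j _ =>
      (hint (α j) (α i)).const_mul _]
    refine Finset.sum_le_sum fun i _ => ?_
    rw [integral_finsetSum _ fun j _ => (hint (α j) (α i)).const_mul _]
    refine Finset.sum_le_sum fun j _ => ?_
    rw [integral_const_mul]
    exact mul_le_mul_of_nonneg_left (int_le a b (α j) (α i) ha0 (hα0 j) (hα0 i)) (by positivity)
  -- Cauchy-Schwarz
  have hCS : ∑ s, ∑ i, ∑ j, ‖w s i j‖ ^ 2 * (|α j - α i| * (α j + α i)) ≤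
      √(en u x) * √(4 * k * hs x) := by
    have h1 : ∑ s, ∑ i, ∑ j, ‖w s i j‖ ^ 2 * (|α j - α i| * (α j + α i)) =
        ∑ p : Fin k × Fin d × Fin d, (‖w p.1 p.2.1 p.2.2‖ * |α p.2.2 - α p.2.1|) *
          (‖w p.1 p.2.1 p.2.2‖ * (α p.2.2 + α p.2.1)) := by
      rw [Fintype.sum_prod_type]
      refine Finset.sum_congr rfl fun s _ => ?_
      rw [Fintype.sum_prod_type]
      refine Finset.sum_congr rfl fun i _ => Finset.sum_congr rfl fun j _ => ?_
      ring
    have h2 : ∑ p : Fin k × Fin d × Fin d, (‖w p.1 p.2.1 p.2.2‖ * |α p.2.2 - α p.2.1|) ^ 2 =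
        en u x := by
      rw [hxD, hen, Fintype.sum_prod_type]
      refine Finset.sum_congr rfl fun s _ => ?_
      rw [Fintype.sum_prod_type]
      refine Finset.sum_congr rfl fun i _ => Finset.sum_congr rfl fun j _ => ?_
      rw [mul_pow, sq_abs]
    have h3 : ∑ p : Fin k × Fin d × Fin d, (‖w p.1 p.2.1 p.2.2‖ * (α p.2.2 + α p.2.1)) ^ 2 ≤
        4 * k * hs x := by
      rw [Fintype.sum_prod_type]
      have h4 : ∀ s, ∑ p : Fin d × Fin d, (‖w s p.1 p.2‖ * (α p.2 + α p.1)) ^ 2 ≤ 4 * hs x := by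
        intro s
        rw [Fintype.sum_prod_type]
        calc ∑ i, ∑ j, (‖w s i j‖ * (α j + α i)) ^ 2
            ≤ ∑ i, ∑ j, (2 * (‖w s i j‖ ^ 2 * α j ^ 2) + 2 * (‖w s i j‖ ^ 2 * α i ^ 2)) := by
              refine Finset.sum_le_sum fun i _ => Finset.sum_le_sum fun j _ => ?_
              nlinarith [mul_nonneg (sq_nonneg ‖w s i j‖) (sq_nonneg (α j - α i))]
          _ = 2 * (∑ j, (∑ i, ‖w s i j‖ ^ 2) * α j ^ 2) +
                2 * (∑ i, (∑ j, ‖w s i j‖ ^ 2) * α i ^ 2) := by
              simp only [Finset.sum_add_distrib, Finset.sum_mul, Finset.mul_sum]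
              rw [Finset.sum_comm]
          _ = 4 * hs x := by
              conv_rhs => rw [hxD, Dg_hs V hV hV']
              simp only [hcol, hrow, one_mul]
              ring
      calc ∑ s : Fin k, ∑ p : Fin d × Fin d, (‖w s p.1 p.2‖ * (α p.2 + α p.1)) ^ 2
          ≤ ∑ _s : Fin k, 4 * hs x := Finset.sum_le_sum fun s _ => h4 s
        _ = 4 * k * hs x := by
            rw [Finset.sum_const, Finset.card_univ, Fintype.card_fin, nsmul_eq_mul]
            ring
    rw [h1]
    refine (Real.sum_mul_le_sqrt_mul_sqrt _ _ _).trans ?_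
    rw [h2]
    exact mul_le_mul_of_nonneg_left (Real.sqrt_le_sqrt h3) (Real.sqrt_nonneg _)
  have hsqrt : √(en u x) * √(4 * k * hs x) = 2 * √k * √(hs x * en u x) := by
    have hk : (0 : ℝ) ≤ k := Nat.cast_nonneg k
    have hh : 0 ≤ hs x := by
      unfold hs
      exact Finset.sum_nonneg fun i _ => Finset.sum_nonneg fun j _ => by positivity
    rw [Real.sqrt_mul (by positivity : (0 : ℝ) ≤ 4 * k), Real.sqrt_mul (by norm_num : (0 : ℝ) ≤ 4),
      Real.sqrt_mul hh]
    have : √(4 : ℝ) = 2 := by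
      rw [show (4 : ℝ) = 2 ^ 2 by norm_num]
      exact Real.sqrt_sq (by norm_num)
    rw [this]
    ring
  -- the projection
  have hBv : ∀ i, B t i = 0 ∨ B t i = 1 := by
    intro i
    by_cases h : t ≤ α i
    · right; simp [hB, h]
    · left; simp [hB, h]
  have hBt : ∀ i, B t i = 1 → t ≤ α i := by
    intro i h
    by_contra h'
    simp [hB, h'] at h
  have hBf : ∀ i, B t i = 0 → α i < t := by
    intro i h
    by_contra h'
    push Not at h'
    simp [hB, h'] at h
  refine ⟨Dg V (B t), ⟨Dg_herm V _, ?_⟩, ?_, ?_, ?_, ?_, ?_, ?_⟩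
  · rw [Dg_mul V hV]
    congr 1
    ext i
    rcases hBv i with h | h <;> simp [h]
  · conv_lhs => rw [hxD]
    conv_rhs => rw [hxD]
    rw [Dg_mul V hV, Dg_mul V hV]
    congr 1
    ext i
    ring
  · unfold Le
    conv => rw [hxD]
    rw [Dg_smul, Dg_sub]
    refine Dg_pos V _ fun i => ?_
    rcases hBv i with h | h
    · rw [h]
      have := hα0 i
      linarith
    · rw [h]
      have := hBt i h
      linarith [ht.1]
  · unfold Le
    conv => rw [hxD]
    rw [← Dg_one V hV', Dg_sub, Dg_mul V hV, Dg_smul, Dg_sub]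
    refine Dg_pos V _ fun i => ?_
    rcases hBv i with h | h
    · rw [h]
      have := hBf i h
      linarith [ht.2]
    · rw [h]
      linarith
  · refine hte.trans ?_
    have h5 : ∑ s, ∑ i, ∑ j, ‖w s i j‖ ^ 2 * (|α j - α i| * (α j + α i) / a) =
        (∑ s, ∑ i, ∑ j, ‖w s i j‖ ^ 2 * (|α j - α i| * (α j + α i))) / a := by
      simp only [Finset.sum_div]
      refine Finset.sum_congr rfl fun s _ => Finset.sum_congr rfl fun i _ =>
        Finset.sum_congr rfl fun j _ => ?_
      ring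
    rw [h5] at hI
    have hba : 0 < b - a := by linarith
    calc (b - a)⁻¹ * ∫ t in Set.Icc a b, en u (Dg V (B t))
        ≤ (b - a)⁻¹ * ((2 * √k * √(hs x * en u x)) / a) := by
          refine mul_le_mul_of_nonneg_left (hI.trans ?_) (by positivity)
          refine div_le_div_of_nonneg_right ?_ ha0.le
          rw [← hsqrt]
          exact hCS
      _ = 2 * √k / (a * (b - a)) * √(hs x * en u x) := by
          field_simp
  · rw [Dg_tr V hV, hxh.rank_eq_card_non_zero_eigs]
    have h6 : ∑ i, B t i ≤ ∑ i, (if α i ≠ 0 then (1 : ℝ) else 0) := by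
      refine Finset.sum_le_sum fun i _ => ?_
      rcases hBv i with h | h
      · rw [h]
        split_ifs <;> norm_num
      · rw [h]
        have h7 := hBt i h
        have h8 : α i ≠ 0 := by
          have := ht.1
          intro h9
          linarith
        rw [if_pos h8]
    refine h6.trans ?_
    rw [Finset.sum_boole, Fintype.card_subtype]
  · intro f hf
    have hf' : IsPr (Vᴴ * f * V) := by
      refine ⟨?_, ?_⟩
      · rw [conjTranspose_mul, conjTranspose_mul, conjTranspose_conjTranspose, hf.1,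
          Matrix.mul_assoc]
      · have : Vᴴ * f * V * (Vᴴ * f * V) = Vᴴ * (f * (V * Vᴴ) * f) * V := by
          simp only [Matrix.mul_assoc]
        rw [this, hV', Matrix.mul_one, hf.2]
    obtain ⟨c, hc, hcβ⟩ := diag_hs (Vᴴ * f * V) hf'
    have htr : ∀ β : Fin d → ℝ, hs (Dg V β - f) =
        hs (diagonal (fun i => (β i : ℂ)) - Vᴴ * f * V) := by
      intro β
      have h9 : hs (Dg V β - f) = hs (Vᴴ * (Dg V β - f) * V) := by
        rw [hs_right V _ hV', hs_left Vᴴ _ (by rw [conjTranspose_conjTranspose]; exact hV')]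
      rw [h9, Matrix.mul_sub, Matrix.sub_mul]
      congr 2
      unfold Dg
      have : Vᴴ * (V * diagonal (fun i => (β i : ℂ)) * Vᴴ) * V =
        (Vᴴ * V) * diagonal (fun i => (β i : ℂ)) * (Vᴴ * V) := by simp only [Matrix.mul_assoc]
      rw [this, hV, Matrix.mul_one, Matrix.one_mul]
    have h10 : hs (x - f) = ∑ i, (c i * (1 - α i) ^ 2 + (1 - c i) * α i ^ 2) := by
      conv_lhs => rw [hxD]
      rw [htr, hcβ]
    rw [h10, htr, hcβ, Finset.mul_sum]
    refine Finset.sum_le_sum fun i _ => ?_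
    obtain ⟨hc0, hc1⟩ := hc i
    rcases hBv i with h | h
    · rw [h]
      have h11 := hBf i h
      have h12 : α i < 3 / 4 := by linarith [ht.2]
      have h13 : 1 ≤ 16 * (1 - α i) ^ 2 := by nlinarith
      have h14 : 0 ≤ (1 - c i) * α i ^ 2 := mul_nonneg (by linarith) (sq_nonneg _)
      nlinarith [mul_le_mul_of_nonneg_left h13 hc0]
    · rw [h]
      have h11 := hBt i h
      have h12 : 1 / 4 ≤ α i := by linarith [ht.1]
      have h13 : 1 ≤ 16 * α i ^ 2 := by nlinarith
      have h14 : 0 ≤ c i * (1 - α i) ^ 2 := mul_nonneg hc0 (sq_nonneg _)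
      nlinarith [mul_le_mul_of_nonneg_left h13 (by linarith : 0 ≤ 1 - c i)]

end Pool.Agent.W696.RC.LEV
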